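import Pool.Agent.L7lead.LA.Stm

/-!
# Project LA, part (KA): mass and exponential moments of the heat kernel
-/

set_option autoImplicit false

namespace Pool.Agent.L7h21.LA

open MeasureTheory Finset
open Pool.Agent.L7lead.LA

lemma pk_pos (s : ℝ) (hs : 0 < s) (z : E) : 0 < pk s z := by
  unfold pk
  positivity

lemma pk_cont (s : ℝ) : Continuous (pk s) := by
  unfold pk
  fun_prop

lemma pk_int_eq (s : ℝ) (hs : 0 < s) : ∫ z : E, pk s z = 1 := by
  unfold pk
  rw [integral_const_mul]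
  have h1 := GaussianFourier.integral_rexp_neg_mul_sq_norm (V := E)
    (by positivity : 0 < 1 / (4 * s))
  have h2 : ∀ v : E, Real.exp (-(1 / (4 * s)) * ‖v‖ ^ 2) = Real.exp (-(‖v‖ ^ 2) / (4 * s)) := by
    intro v
    congr 1
    ring
  simp only [h2] at h1
  rw [h1]
  have h3 : Real.pi / (1 / (4 * s)) = 4 * Real.pi * s := by
    field_simp
  rw [h3, finrank_euclideanSpace_fin]
  have h4 : (0 : ℝ) < 4 * Real.pi * s := by positivity
  rw [← Real.rpow_add h4]
  norm_num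

lemma pk_integrable (s : ℝ) (hs : 0 < s) : Integrable (pk s) := by
  apply Integrable.of_integral_ne_zero
  rw [pk_int_eq s hs]
  exact one_ne_zero

/-- the kernel times an exponential is a translate of the kernel -/
lemma pk_exp (s κ : ℝ) (hs : 0 < s) (v z : E) :
    pk s z * Real.exp (κ * inner ℝ v z) =
      Real.exp (κ ^ 2 * ‖v‖ ^ 2 * s) * pk s (z - (2 * s * κ) • v) := by
  unfold pk
  rw [mul_assoc, ← Real.exp_add, mul_left_comm, ← Real.exp_add]
  congr 2
  have h1 : ‖z - (2 * s * κ) • v‖ ^ 2 = ‖z‖ ^ 2 - 2 * (2 * s * κ) * inner ℝ v z +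
      (2 * s * κ) ^ 2 * ‖v‖ ^ 2 := by
    rw [norm_sub_sq_real, inner_smul_right, norm_smul, mul_pow, Real.norm_eq_abs, sq_abs,
      real_inner_comm]
    ring
  rw [h1]
  field_simp
  ring

lemma pk_exp_integrable (s κ : ℝ) (hs : 0 < s) (v : E) :
    Integrable (fun z => pk s z * Real.exp (κ * inner ℝ v z)) := by
  simp only [pk_exp s κ hs v]
  exact ((pk_integrable s hs).comp_sub_right _).const_mul _

lemma pk_exp_int (s κ : ℝ) (hs : 0 < s) (v : E) :
    ∫ z, pk s z * Real.exp (κ * inner ℝ v z) = Real.exp (κ ^ 2 * ‖v‖ ^ 2 * s) := by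
  simp only [pk_exp s κ hs v]
  rw [integral_const_mul, integral_sub_right_eq_self (pk s), pk_int_eq s hs, mul_one]

/-- the sign vectors -/
noncomputable def sg : Finset (Fin 3 → ℝ) := Fintype.piFinset (fun _ => {1, -1})

lemma sg_card : sg.card = 8 := by
  unfold sg
  rw [Fintype.card_piFinset, prod_const, card_univ, Fintype.card_fin,
    card_pair (by norm_num : (1 : ℝ) ≠ -1)]
  norm_num

lemma sg_norm (σ : Fin 3 → ℝ) (hσ : σ ∈ sg) : ‖(WithLp.toLp 2 σ : E)‖ ^ 2 = 3 := by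
  unfold sg at hσ
  rw [Fintype.mem_piFinset] at hσ
  rw [EuclideanSpace.norm_sq_eq]
  have h1 : ∀ i, ‖(WithLp.toLp 2 σ : E) i‖ ^ 2 = 1 := by
    intro i
    have := hσ i
    rw [mem_insert, mem_singleton] at this
    change ‖σ i‖ ^ 2 = 1
    rcases this with h | h <;> rw [h] <;> norm_num
  rw [sum_congr rfl fun i _ => h1 i]
  simp

lemma exp_le (κ : ℝ) (hκ : 0 ≤ κ) (z : E) :
    Real.exp (κ * ‖z‖) ≤ ∑ σ ∈ sg, Real.exp (κ * inner ℝ (WithLp.toLp 2 σ : E) z) := by
  have h1 : ‖z‖ ≤ ∑ i, |z i| := by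
    rw [EuclideanSpace.norm_eq, Real.sqrt_le_left (sum_nonneg fun i _ => abs_nonneg _)]
    simp only [Real.norm_eq_abs, Fin.sum_univ_three]
    nlinarith [abs_nonneg (z 0), abs_nonneg (z 1), abs_nonneg (z 2),
      mul_nonneg (abs_nonneg (z 0)) (abs_nonneg (z 1)),
      mul_nonneg (abs_nonneg (z 0)) (abs_nonneg (z 2)),
      mul_nonneg (abs_nonneg (z 1)) (abs_nonneg (z 2))]
  have h2 : Real.exp (κ * ‖z‖) ≤ ∏ i, Real.exp (κ * |z i|) := by
    rw [← Real.exp_sum, ← mul_sum]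
    exact Real.exp_le_exp.2 (mul_le_mul_of_nonneg_left h1 hκ)
  have h3 : ∏ i, Real.exp (κ * |z i|) ≤
      ∏ i : Fin 3, ∑ x ∈ ({1, -1} : Finset ℝ), Real.exp (κ * (x * z i)) := by
    refine prod_le_prod (fun i _ => (Real.exp_pos _).le) fun i _ => ?_
    rw [sum_pair (by norm_num : (1 : ℝ) ≠ -1)]
    rcases abs_choice (z i) with h | h
    · rw [h, one_mul]
      exact le_add_of_nonneg_right (Real.exp_pos _).le
    · rw [h, neg_one_mul]
      exact le_add_of_nonneg_left (Real.exp_pos _).le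
  refine h2.trans (h3.trans (le_of_eq ?_))
  rw [prod_univ_sum]
  refine sum_congr rfl fun σ _ => ?_
  rw [← Real.exp_sum, ← mul_sum]
  congr 2
  rw [PiLp.inner_apply]
  refine sum_congr rfl fun i _ => ?_
  simp [mul_comm]

theorem t_KA : S_KA := by
  intro s hs
  refine ⟨pk_int_eq s hs, fun κ hκ => ?_⟩
  have hint : Integrable (fun z : E => ∑ σ ∈ sg,
      pk s z * Real.exp (κ * inner ℝ (WithLp.toLp 2 σ : E) z)) :=
    integrable_finsetSum _ fun σ _ => pk_exp_integrable s κ hs _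
  have hle : ∀ z : E, pk s z * Real.exp (κ * ‖z‖) ≤ ∑ σ ∈ sg,
      pk s z * Real.exp (κ * inner ℝ (WithLp.toLp 2 σ : E) z) := by
    intro z
    rw [← mul_sum]
    exact mul_le_mul_of_nonneg_left (exp_le κ hκ z) (pk_pos s hs z).le
  have hnn : ∀ z : E, 0 ≤ pk s z * Real.exp (κ * ‖z‖) := fun z =>
    mul_nonneg (pk_pos s hs z).le (Real.exp_pos _).le
  have hi : Integrable (fun z : E => pk s z * Real.exp (κ * ‖z‖)) := by
    refine hint.mono' ?_ (Filter.Eventually.of_forall fun z => ?_)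
    · exact ((pk_cont s).mul (by fun_prop)).aestronglyMeasurable
    · rw [Real.norm_eq_abs, abs_of_nonneg (hnn z)]
      exact hle z
  refine ⟨hi, (integral_mono hi hint hle).trans (le_of_eq ?_)⟩
  rw [integral_finsetSum _ fun σ _ => pk_exp_integrable s κ hs _]
  have h1 : ∀ σ ∈ sg, ∫ z, pk s z * Real.exp (κ * inner ℝ (WithLp.toLp 2 σ : E) z) =
      Real.exp (3 * κ ^ 2 * s) := by
    intro σ hσ
    rw [pk_exp_int s κ hs, sg_norm σ hσ]
    congr 1
    ring
  rw [sum_congr rfl h1, sum_const, sg_card, nsmul_eq_mul]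
  norm_num

end Pool.Agent.L7h21.LA
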