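import Pool.Agent.L7h21.LA.Ka

/-!
# Project LA, part (KB): the heat equation tested against `C²` functions with compact support
-/

set_option autoImplicit false

namespace Pool.Agent.L7h21.LA

open MeasureTheory Finset Filter Topology
open Pool.Agent.L7lead.LA

/-- the coordinate vector -/
noncomputable abbrev ee (i : Fin 3) : E := EuclideanSpace.single i (1 : ℝ)

lemma pk_fderiv (s : ℝ) (y x : E) :
    HasFDerivAt (fun x : E => pk s (x - y))
      ((pk s (x - y) * (-(1 / (2 * s)))) • (innerSL ℝ (x - y))) x := by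
  have h1 : HasFDerivAt (fun x : E => ‖x - y‖ ^ 2) (2 • (innerSL ℝ (x - y))) x := by
    have := ((hasFDerivAt_id x).sub_const y).norm_sq
    simpa using this
  have h2 : HasFDerivAt (fun x : E => -(‖x - y‖ ^ 2) / (4 * s))
      ((-(1 / (4 * s))) • (2 • (innerSL ℝ (x - y)))) x := by
    have h3 := h1.const_mul (-(1 / (4 * s)))
    refine h3.congr_of_eventuallyEq (Eventually.of_forall fun z => ?_)
    simp only []
    ring
  have h4 := (h2.exp).const_mul ((4 * Real.pi * s) ^ (-(3 / 2) : ℝ))
  refine h4.congr_fderiv ?_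
  ext v
  simp only [smul_apply, smul_eq_mul, nsmul_eq_mul, pk, Nat.cast_ofNat]
  ring

lemma coord_fderiv (y x : E) (i : Fin 3) :
    HasFDerivAt (fun x : E => (x - y) i) (EuclideanSpace.proj i : E →L[ℝ] ℝ) x := by
  have h1 := (EuclideanSpace.proj i : E →L[ℝ] ℝ).hasFDerivAt (x := x - y)
  have h2 := h1.comp x ((hasFDerivAt_id x).sub_const y)
  exact h2

lemma inner_ee (z : E) (i : Fin 3) : inner ℝ z (ee i) = z i := by
  rw [ee, real_inner_comm, EuclideanSpace.inner_single_left]
  simp

lemma norm_eq_sum (z : E) : ‖z‖ ^ 2 = ∑ i, z i ^ 2 := by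
  rw [EuclideanSpace.norm_sq_eq]
  simp

section

variable (φ : E → ℝ) (hφ : ContDiff ℝ 2 φ) (hc : HasCompactSupport φ)

include hφ in
lemma d1_contDiff (i : Fin 3) : ContDiff ℝ 1 (fun x => fderiv ℝ φ x (ee i)) := by
  have h1 : ContDiff ℝ 1 (fderiv ℝ φ) := hφ.fderiv_right (by norm_num)
  exact h1.clm_apply contDiff_const

include hc in
lemma d1_supp (i : Fin 3) : HasCompactSupport (fun x => fderiv ℝ φ x (ee i)) :=
  hc.fderiv_apply (𝕜 := ℝ) (ee i)

include hφ in
lemma lap_eq (x : E) : Lap φ x = ∑ i, fderiv ℝ (fun x => fderiv ℝ φ x (ee i)) x (ee i) := by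
  unfold Lap
  refine sum_congr rfl fun i _ => ?_
  rw [iteratedFDeriv_two_apply]
  have h1 : DifferentiableAt ℝ (fderiv ℝ φ) x :=
    ((hφ.fderiv_right (m := 1) (by norm_num)).differentiable (by norm_num)).differentiableAt
  have h2 := h1.hasFDerivAt.clm_apply (hasFDerivAt_const (ee i) x)
  rw [h2.fderiv]
  simp

include hφ in
lemma d2_cont (i : Fin 3) : Continuous (fun x => fderiv ℝ (fun x => fderiv ℝ φ x (ee i)) x (ee i)) :=
  ((d1_contDiff φ hφ i).continuous_fderiv (by norm_num)).clm_apply continuous_const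

include hc in
lemma d2_supp (i : Fin 3) :
    HasCompactSupport (fun x => fderiv ℝ (fun x => fderiv ℝ φ x (ee i)) x (ee i)) :=
  (d1_supp φ hc i).fderiv_apply (𝕜 := ℝ) (ee i)

include hφ hc in
/-- two integrations by parts -/
lemma parts (s : ℝ) (hs : 0 < s) (y : E) (i : Fin 3) :
    ∫ x, pk s (x - y) * fderiv ℝ (fun x => fderiv ℝ φ x (ee i)) x (ee i) =
      ∫ x, pk s (x - y) * (-(1 / (2 * s)) + (x - y) i ^ 2 / (4 * s ^ 2)) * φ x := by
  have hpc : Continuous (fun x : E => pk s (x - y)) := (pk_cont s).comp (by fun_prop)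
  have hpd : ∀ x, fderiv ℝ (fun x : E => pk s (x - y)) x (ee i) =
      -((x - y) i / (2 * s) * pk s (x - y)) := by
    intro x
    rw [(pk_fderiv s y x).fderiv]
    simp only [smul_apply, smul_eq_mul, innerSL_apply_apply]
    rw [inner_ee]
    ring
  have hcoc : Continuous (fun x : E => (x - y) i) := by fun_prop
  have hfd : ∀ x, HasFDerivAt (fun x : E => (x - y) i / (2 * s) * pk s (x - y))
      (((x - y) i / (2 * s)) • ((pk s (x - y) * (-(1 / (2 * s)))) • (innerSL ℝ (x - y))) +
        pk s (x - y) • ((2 * s)⁻¹ • (EuclideanSpace.proj i : E →L[ℝ] ℝ))) x := by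
    intro x
    have h1 : HasFDerivAt (fun x : E => (x - y) i / (2 * s))
        ((2 * s)⁻¹ • (EuclideanSpace.proj i : E →L[ℝ] ℝ)) x := by
      have := (coord_fderiv y x i).const_mul (2 * s)⁻¹
      refine this.congr_of_eventuallyEq (Eventually.of_forall fun z => ?_)
      simp only []
      rw [div_eq_inv_mul]
    exact h1.mul (pk_fderiv s y x)
  have hfd' : ∀ x, fderiv ℝ (fun x : E => (x - y) i / (2 * s) * pk s (x - y)) x (ee i) =
      -(pk s (x - y) * (-(1 / (2 * s)) + (x - y) i ^ 2 / (4 * s ^ 2))) := by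
    intro x
    rw [(hfd x).fderiv]
    simp only [add_apply, smul_apply, smul_eq_mul, innerSL_apply_apply]
    rw [inner_ee]
    have h1 : (EuclideanSpace.proj i : E →L[ℝ] ℝ) (ee i) = 1 := by
      change (ee i : E) i = 1
      simp [ee]
    rw [h1]
    field_simp
    ring
  have hd1c : Continuous (fun x => fderiv ℝ φ x (ee i)) := (d1_contDiff φ hφ i).continuous
  have hd1s := d1_supp φ hc i
  have hφc := hφ.continuous
  -- first integration by parts
  have e1 := integral_mul_fderiv_eq_neg_fderiv_mul_of_integrable (μ := (volume : Measure E))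
    (f := fun x : E => pk s (x - y)) (g := fun x => fderiv ℝ φ x (ee i)) (v := ee i)
    (by
      simp only [hpd]
      exact (((hcoc.div_const _).mul hpc).neg.mul hd1c).integrable_of_hasCompactSupport
        (hd1s.mul_left))
    ((hpc.mul (d2_cont φ hφ i)).integrable_of_hasCompactSupport (d2_supp φ hc i).mul_left)
    ((hpc.mul hd1c).integrable_of_hasCompactSupport hd1s.mul_left)
    (fun x _ => (pk_fderiv s y x).differentiableAt)
    (fun x _ => ((d1_contDiff φ hφ i).differentiable (by norm_num)).differentiableAt)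
  -- second integration by parts
  have e2 := integral_mul_fderiv_eq_neg_fderiv_mul_of_integrable (μ := (volume : Measure E))
    (f := fun x : E => (x - y) i / (2 * s) * pk s (x - y)) (g := φ) (v := ee i)
    (by
      simp only [hfd']
      refine Continuous.integrable_of_hasCompactSupport ?_ hc.mul_left
      exact (hpc.mul (continuous_const.add ((hcoc.pow 2).div_const _))).neg.mul hφc)
    ((((hcoc.div_const _).mul hpc).mul hd1c).integrable_of_hasCompactSupport hd1s.mul_left)
    ((((hcoc.div_const _).mul hpc).mul hφc).integrable_of_hasCompactSupport hc.mul_left)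
    (fun x _ => (hfd x).differentiableAt)
    (fun x _ => (hφ.differentiable (by norm_num)).differentiableAt)
  rw [e1]
  simp only [hpd]
  have e3 : ∀ x, -((x - y) i / (2 * s) * pk s (x - y)) * fderiv ℝ φ x (ee i) =
      -((x - y) i / (2 * s) * pk s (x - y) * fderiv ℝ φ x (ee i)) := fun x => by ring
  simp only [e3]
  rw [integral_neg, neg_neg, e2]
  simp only [hfd']
  rw [← integral_neg]
  refine integral_congr_ae (Eventually.of_forall fun x => ?_)
  simp only []
  ring

include hφ hc in
/-- Green's identity for the kernel -/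
lemma green (s : ℝ) (hs : 0 < s) (y : E) :
    ∫ x, pk s (x - y) * Lap φ x =
      ∫ x, pk s (x - y) * (-(3 / (2 * s)) + ‖x - y‖ ^ 2 / (4 * s ^ 2)) * φ x := by
  have hpc : Continuous (fun x : E => pk s (x - y)) := (pk_cont s).comp (by fun_prop)
  have h1 : ∀ x, pk s (x - y) * Lap φ x =
      ∑ i, pk s (x - y) * fderiv ℝ (fun x => fderiv ℝ φ x (ee i)) x (ee i) := by
    intro x
    rw [lap_eq φ hφ x, mul_sum]
  simp only [h1]
  have h2 : ∀ i ∈ (univ : Finset (Fin 3)), Integrable (fun x =>
      pk s (x - y) * fderiv ℝ (fun x => fderiv ℝ φ x (ee i)) x (ee i)) := fun i _ =>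
    (hpc.mul (d2_cont φ hφ i)).integrable_of_hasCompactSupport (d2_supp φ hc i).mul_left
  rw [integral_finsetSum _ h2]
  rw [sum_congr rfl fun i _ => parts φ hφ hc s hs y i]
  rw [← integral_finsetSum]
  · refine integral_congr_ae (Eventually.of_forall fun x => ?_)
    simp only []
    rw [← sum_mul, ← mul_sum, norm_eq_sum]
    congr 2
    rw [sum_add_distrib, sum_const, card_univ, Fintype.card_fin, ← sum_div]
    simp only [nsmul_eq_mul, Nat.cast_ofNat]
    ring
  · intro i _
    refine Continuous.integrable_of_hasCompactSupport ?_ hc.mul_left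
    have hcoc : Continuous (fun x : E => (x - y) i) := by fun_prop
    exact (hpc.mul (continuous_const.add ((hcoc.pow 2).div_const _))).mul hφ.continuous

end

/-- the time derivative of the kernel -/
lemma pk_deriv (z : E) (s : ℝ) (hs : 0 < s) :
    HasDerivAt (fun s => pk s z) (pk s z * (-(3 / (2 * s)) + ‖z‖ ^ 2 / (4 * s ^ 2))) s := by
  have hp : (0 : ℝ) < 4 * Real.pi * s := by positivity
  have h1 : HasDerivAt (fun s : ℝ => 4 * Real.pi * s) (4 * Real.pi) s := by
    simpa using (hasDerivAt_id s).const_mul (4 * Real.pi)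
  have h2 := h1.rpow_const (p := (-(3 / 2) : ℝ)) (Or.inl hp.ne')
  have h3 : HasDerivAt (fun s : ℝ => -(‖z‖ ^ 2) / (4 * s)) (‖z‖ ^ 2 / (4 * s ^ 2)) s := by
    have h4 : HasDerivAt (fun s : ℝ => 4 * s) 4 s := by
      simpa using (hasDerivAt_id s).const_mul (4 : ℝ)
    have h5 := (hasDerivAt_const s (-(‖z‖ ^ 2))).div h4 (by positivity)
    refine h5.congr_deriv ?_
    rw [zero_mul, zero_sub, neg_mul, neg_neg]
    field_simp
  have h6 := h2.mul h3.exp
  refine h6.congr_deriv ?_
  unfold pk
  rw [Real.rpow_sub_one hp.ne']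
  field_simp

theorem t_KB : S_KB := by
  intro φ hφ hc y s hs
  rw [green φ hφ hc s hs y]
  have hφc := hφ.continuous
  have hpc : ∀ s, Continuous (fun x : E => pk s (x - y)) := fun s => (pk_cont s).comp (by fun_prop)
  have hn : Continuous (fun x : E => ‖x - y‖ ^ 2) := by fun_prop
  have hball : Metric.ball s (s / 2) ∈ 𝓝 s := Metric.ball_mem_nhds s (by positivity)
  refine (hasDerivAt_integral_of_dominated_loc_of_deriv_le
    (bound := fun x => (2 * Real.pi * s) ^ (-(3 / 2) : ℝ) * (3 / s + ‖x - y‖ ^ 2 / s ^ 2) * |φ x|)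
    (F' := fun s x => pk s (x - y) * (-(3 / (2 * s)) + ‖x - y‖ ^ 2 / (4 * s ^ 2)) * φ x)
    hball ?_ ?_ ?_ ?_ ?_ ?_).2
  · exact Eventually.of_forall fun σ => ((hpc σ).mul hφc).aestronglyMeasurable
  · exact ((hpc s).mul hφc).integrable_of_hasCompactSupport hc.mul_left
  · exact (((hpc s).mul (continuous_const.add (hn.div_const _))).mul hφc).aestronglyMeasurable
  · refine Eventually.of_forall fun x σ hσ => ?_
    rw [Metric.mem_ball, Real.dist_eq, abs_lt] at hσ
    have hσ1 : s / 2 ≤ σ := by linarith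
    have hσ0 : 0 < σ := by linarith
    rw [norm_mul, norm_mul, Real.norm_eq_abs (φ x), Real.norm_eq_abs, Real.norm_eq_abs,
      abs_of_pos (pk_pos σ hσ0 _)]
    refine mul_le_mul_of_nonneg_right ?_ (abs_nonneg _)
    refine mul_le_mul ?_ ?_ (abs_nonneg _) (by positivity)
    · unfold pk
      have h1 : (4 * Real.pi * σ) ^ (-(3 / 2) : ℝ) ≤ (2 * Real.pi * s) ^ (-(3 / 2) : ℝ) := by
        refine Real.rpow_le_rpow_of_nonpos (by positivity) ?_ (by norm_num)
        have := Real.pi_pos
        nlinarith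
      have h2 : Real.exp (-(‖x - y‖ ^ 2) / (4 * σ)) ≤ 1 := by
        rw [Real.exp_le_one_iff]
        exact div_nonpos_of_nonpos_of_nonneg (neg_nonpos.2 (sq_nonneg _)) (by positivity)
      calc _ ≤ (2 * Real.pi * s) ^ (-(3 / 2) : ℝ) * 1 :=
            mul_le_mul h1 h2 (Real.exp_pos _).le (by positivity)
        _ = _ := mul_one _
    · have h1 : 3 / (2 * σ) ≤ 3 / s := div_le_div_of_nonneg_left (by norm_num) hs (by linarith)
      have h2 : ‖x - y‖ ^ 2 / (4 * σ ^ 2) ≤ ‖x - y‖ ^ 2 / s ^ 2 :=
        div_le_div_of_nonneg_left (sq_nonneg _) (by positivity) (by nlinarith)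
      have h3 : 0 ≤ 3 / (2 * σ) := by positivity
      have h4 : 0 ≤ ‖x - y‖ ^ 2 / (4 * σ ^ 2) := by positivity
      rw [abs_le]
      constructor <;> linarith
  · refine Continuous.integrable_of_hasCompactSupport ?_ ?_
    · exact (continuous_const.mul (continuous_const.add (hn.div_const _))).mul hφc.abs
    · exact HasCompactSupport.mul_left (f := fun x =>
        (2 * Real.pi * s) ^ (-(3 / 2) : ℝ) * (3 / s + ‖x - y‖ ^ 2 / s ^ 2)) hc.norm
  · refine Eventually.of_forall fun x σ hσ => ?_
    rw [Metric.mem_ball, Real.dist_eq, abs_lt] at hσ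
    exact (pk_deriv (x - y) σ (by linarith)).mul_const (φ x)

end Pool.Agent.L7h21.LA
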