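import Pool.Agent.L7h21.LA.Ka

/-!
# Project LA, part (KC): the heat kernel is an approximate identity
-/

set_option autoImplicit false

namespace Pool.Agent.L7h21.LA

open MeasureTheory Finset Filter Topology
open Pool.Agent.L7lead.LA

/-- scaling -/
lemma pk_scale (s : ℝ) (hs : 0 < s) (z : E) : Real.sqrt s ^ 3 * pk s (Real.sqrt s • z) = pk 1 z := by
  unfold pk
  have h1 : 0 < Real.sqrt s := Real.sqrt_pos.2 hs
  have h2 : Real.sqrt s ^ 2 = s := Real.sq_sqrt hs.le
  have h3 : ‖Real.sqrt s • z‖ ^ 2 = s * ‖z‖ ^ 2 := by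
    rw [norm_smul, mul_pow, Real.norm_eq_abs, sq_abs, h2]
  have h4 : -(s * ‖z‖ ^ 2) / (4 * s) = -(‖z‖ ^ 2) / (4 * 1) := by
    field_simp
  have h5 : (4 * Real.pi * s) ^ (-(3 / 2) : ℝ) = (4 * Real.pi * 1) ^ (-(3 / 2) : ℝ) *
      s ^ (-(3 / 2) : ℝ) := by
    rw [mul_one, Real.mul_rpow (by positivity) hs.le]
  have h6 : Real.sqrt s ^ 3 * s ^ (-(3 / 2) : ℝ) = 1 := by
    rw [Real.sqrt_eq_rpow, ← Real.rpow_natCast, ← Real.rpow_mul hs.le, ← Real.rpow_add hs]
    norm_num
  rw [h3, h4, h5]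
  calc Real.sqrt s ^ 3 * ((4 * Real.pi * 1) ^ (-(3 / 2) : ℝ) * s ^ (-(3 / 2) : ℝ) *
        Real.exp (-(‖z‖ ^ 2) / (4 * 1)))
      = (Real.sqrt s ^ 3 * s ^ (-(3 / 2) : ℝ)) * ((4 * Real.pi * 1) ^ (-(3 / 2) : ℝ) *
        Real.exp (-(‖z‖ ^ 2) / (4 * 1))) := by ring
    _ = _ := by rw [h6, one_mul]

lemma scale_int (φ : E → ℝ) (y : E) (s : ℝ) (hs : 0 < s) :
    ∫ x, pk s (x - y) * φ x = ∫ z, pk 1 z * φ (y + Real.sqrt s • z) := by
  have h1 : 0 < Real.sqrt s := Real.sqrt_pos.2 hs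
  have h2 : ∫ x, pk s (x - y) * φ x = ∫ x, pk s x * φ (y + x) := by
    rw [← integral_sub_right_eq_self (fun x => pk s x * φ (y + x)) y]
    refine integral_congr_ae (Eventually.of_forall fun x => ?_)
    simp only [add_sub_cancel]
  rw [h2]
  have h3 := Measure.integral_comp_smul (volume : Measure E) (fun x => pk s x * φ (y + x))
    (Real.sqrt s)
  rw [finrank_euclideanSpace_fin, smul_eq_mul, abs_of_pos (by positivity)] at h3
  have h4 : ∫ x, pk s x * φ (y + x) =
      Real.sqrt s ^ 3 * ∫ x, pk s (Real.sqrt s • x) * φ (y + Real.sqrt s • x) := by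
    rw [h3, ← mul_assoc, mul_inv_cancel₀ (by positivity), one_mul]
  rw [h4, ← integral_const_mul]
  refine integral_congr_ae (Eventually.of_forall fun x => ?_)
  simp only []
  rw [← mul_assoc, pk_scale s hs]

theorem t_KC : S_KC := by
  intro φ hφ hφc y
  obtain ⟨M, hM⟩ := hφ.bounded_above_of_compact_support hφc
  have h1 : Tendsto (fun s => ∫ z, pk 1 z * φ (y + Real.sqrt s • z)) (𝓝[>] 0)
      (𝓝 (∫ z, pk 1 z * φ y)) := by
    refine tendsto_integral_filter_of_dominated_convergence (fun z => pk 1 z * M) ?_ ?_ ?_ ?_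
    · refine Eventually.of_forall fun s => ?_
      exact ((pk_cont 1).mul (hφ.comp (by fun_prop))).aestronglyMeasurable
    · refine Eventually.of_forall fun s => Eventually.of_forall fun z => ?_
      rw [norm_mul, Real.norm_eq_abs, abs_of_pos (pk_pos 1 one_pos z)]
      exact mul_le_mul_of_nonneg_left (hM _) (pk_pos 1 one_pos z).le
    · exact (pk_integrable 1 one_pos).mul_const M
    · refine Eventually.of_forall fun z => ?_
      have h2 : Continuous (fun s : ℝ => pk 1 z * φ (y + Real.sqrt s • z)) :=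
        continuous_const.mul (hφ.comp (by fun_prop))
      have h3 := (h2.tendsto 0).mono_left (nhdsWithin_le_nhds (s := Set.Ioi 0))
      simpa using h3
  rw [integral_mul_const, pk_int_eq 1 one_pos, one_mul] at h1
  refine h1.congr' ?_
  filter_upwards [self_mem_nhdsWithin] with s hs
  exact (scale_int φ y s hs).symm

end Pool.Agent.L7h21.LA
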