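import Pool.Agent.L7h21.LA.Kb
import Pool.Agent.L7h21.LA.Kc

/-!
# Project LA, part (KER): the resolvent kernel
-/

set_option autoImplicit false

namespace Pool.Agent.L7h21.LA

open MeasureTheory Finset Filter Topology
open Pool.Agent.L7lead.LA

/-- the resolvent kernel -/
noncomputable def Ph (l : ℝ) (x : E) : ℝ := ∫ s in Set.Ioi (0 : ℝ), Real.exp (-(l * s)) * pk s x

lemma pk_meas : Measurable (fun p : E × ℝ => pk p.2 p.1) := by
  unfold pk
  refine Measurable.mul ?_ ?_
  · exact (measurable_const.mul measurable_snd).pow_const _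
  · exact ((measurable_fst.norm.pow_const 2).neg.div (measurable_const.mul measurable_snd)).exp

lemma joint_meas (l : ℝ) (g : E → ℝ) (hg : Measurable g) :
    Measurable (fun p : E × ℝ => Real.exp (-(l * p.2)) * pk p.2 p.1 * g p.1) :=
  (((measurable_const.mul measurable_snd).neg.exp).mul pk_meas).mul (hg.comp measurable_fst)

lemma exp_integrable (c : ℝ) (hc : 0 < c) :
    IntegrableOn (fun s => Real.exp (-(c * s))) (Set.Ioi 0) := by
  have := integrableOn_exp_mul_Ioi (by linarith : -c < 0) 0
  refine this.congr_fun (fun s _ => ?_) measurableSet_Ioi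
  simp only []
  congr 1
  ring

/-- Tonelli, with a weight `g` such that `∫ pk s z |g z| ≤ C e^{m s}`, `m < l` -/
lemma joint_int (l m C : ℝ) (hml : m < l) (g : E → ℝ) (hg : Measurable g)
    (hi : ∀ s, 0 < s → Integrable (fun z => pk s z * g z))
    (hb : ∀ s, 0 < s → ∫ z, pk s z * |g z| ≤ C * Real.exp (m * s)) :
    Integrable (fun p : E × ℝ => Real.exp (-(l * p.2)) * pk p.2 p.1 * g p.1)
      ((volume : Measure E).prod (volume.restrict (Set.Ioi 0))) := by
  rw [integrable_prod_iff' (joint_meas l g hg).aestronglyMeasurable]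
  constructor
  · filter_upwards [ae_restrict_mem measurableSet_Ioi] with s hs
    have h1 := (hi s hs).const_mul (Real.exp (-(l * s)))
    refine h1.congr (Eventually.of_forall fun z => ?_)
    simp only []
    ring
  · have hmeas : AEStronglyMeasurable (fun s : ℝ => ∫ z : E,
        ‖Real.exp (-(l * s)) * pk s z * g z‖) (volume.restrict (Set.Ioi 0)) := by
      have h1 : StronglyMeasurable (Function.uncurry fun (s : ℝ) (z : E) =>
          ‖Real.exp (-(l * s)) * pk s z * g z‖) :=
        (((joint_meas l g hg).comp measurable_swap).norm).stronglyMeasurable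
      exact (StronglyMeasurable.integral_prod_right (ν := (volume : Measure E)) h1).aestronglyMeasurable
    refine ((exp_integrable (l - m) (by linarith)).const_mul C).mono' hmeas ?_
    filter_upwards [ae_restrict_mem measurableSet_Ioi] with s hs
    rw [Set.mem_Ioi] at hs
    rw [Real.norm_eq_abs, abs_of_nonneg (integral_nonneg fun z => norm_nonneg _)]
    have h2 : ∀ z, ‖Real.exp (-(l * s)) * pk s z * g z‖ =
        Real.exp (-(l * s)) * (pk s z * |g z|) := by
      intro z
      rw [norm_mul, norm_mul, Real.norm_eq_abs, Real.norm_eq_abs, Real.norm_eq_abs,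
        abs_of_pos (Real.exp_pos _), abs_of_pos (pk_pos s hs z), mul_assoc]
    simp only [h2]
    rw [integral_const_mul]
    have h3 := mul_le_mul_of_nonneg_left (hb s hs) (Real.exp_pos (-(l * s))).le
    refine h3.trans (le_of_eq ?_)
    have h4 : Real.exp (-((l - m) * s)) = Real.exp (-(l * s)) * Real.exp (m * s) := by
      rw [← Real.exp_add]
      congr 1
      ring
    rw [h4]
    ring

/-- integrals against the kernel -/
lemma Ph_int (l m C : ℝ) (hml : m < l) (g : E → ℝ) (hg : Measurable g)
    (hi : ∀ s, 0 < s → Integrable (fun z => pk s z * g z))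
    (hb : ∀ s, 0 < s → ∫ z, pk s z * |g z| ≤ C * Real.exp (m * s)) :
    Integrable (fun z => Ph l z * g z) ∧ IntegrableOn
      (fun s => Real.exp (-(l * s)) * ∫ z, pk s z * g z) (Set.Ioi 0) ∧
    ∫ z, Ph l z * g z = ∫ s in Set.Ioi (0 : ℝ), Real.exp (-(l * s)) * ∫ z, pk s z * g z := by
  have h1 := joint_int l m C hml g hg hi hb
  have h2 : ∀ z, Ph l z * g z = ∫ s in Set.Ioi (0 : ℝ), Real.exp (-(l * s)) * pk s z * g z := by
    intro z
    unfold Ph
    rw [integral_mul_const]
  have h3 : ∀ s, Real.exp (-(l * s)) * ∫ z, pk s z * g z =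
      ∫ z, Real.exp (-(l * s)) * pk s z * g z := by
    intro s
    rw [← integral_const_mul]
    refine integral_congr_ae (Eventually.of_forall fun z => ?_)
    simp only []
    ring
  refine ⟨?_, ?_, ?_⟩
  · simp only [h2]
    exact h1.integral_prod_left
  · simp only [h3]
    exact h1.integral_prod_right
  · simp only [h2, h3]
    exact integral_integral_swap h1

theorem t_KER : S_KA → S_KB → S_KC → S_KER := by
  intro hA hB hC κ hκ
  refine ⟨3 * κ ^ 2 + 1, by positivity, Ph (3 * κ ^ 2 + 1), ?_⟩
  set l : ℝ := 3 * κ ^ 2 + 1 with hl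
  have hl0 : 0 < l := by positivity
  refine ⟨?_, ?_, ?_, ?_⟩
  · have h1 : StronglyMeasurable (Function.uncurry fun (x : E) (s : ℝ) =>
        Real.exp (-(l * s)) * pk s x) :=
      (((measurable_const.mul measurable_snd).neg.exp).mul pk_meas).stronglyMeasurable
    exact (StronglyMeasurable.integral_prod_right
      (ν := (volume : Measure ℝ).restrict (Set.Ioi 0)) h1).measurable
  · intro x
    unfold Ph
    refine setIntegral_nonneg measurableSet_Ioi fun s hs => ?_
    exact mul_nonneg (Real.exp_pos _).le (pk_pos s hs x).le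
  · have h1 : ∀ s, 0 < s → ∫ z : E, pk s z * |Real.exp (κ * ‖z‖)| ≤
        8 * Real.exp (3 * κ ^ 2 * s) := by
      intro s hs
      simp only [abs_of_pos (Real.exp_pos _)]
      exact ((hA s hs).2 κ hκ).2
    exact (Ph_int l (3 * κ ^ 2) 8 (by rw [hl]; linarith) (fun z => Real.exp (κ * ‖z‖))
      (by fun_prop) (fun s hs => ((hA s hs).2 κ hκ).1) h1).1
  · intro φ hφ hc y
    -- bounded continuous test functions
    have key : ∀ ψ : E → ℝ, Continuous ψ → HasCompactSupport ψ →
        IntegrableOn (fun s => Real.exp (-(l * s)) * ∫ x, pk s (x - y) * ψ x) (Set.Ioi 0) ∧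
        ∫ x, Ph l (x - y) * ψ x =
          ∫ s in Set.Ioi (0 : ℝ), Real.exp (-(l * s)) * ∫ x, pk s (x - y) * ψ x := by
      intro ψ hψ hψc
      obtain ⟨M, hM⟩ := hψ.bounded_above_of_compact_support hψc
      have hM0 : 0 ≤ M := (norm_nonneg _).trans (hM 0)
      have h1 := Ph_int l 0 M hl0 (fun z => ψ (z + y)) (by fun_prop)
        (fun s hs => (pk_integrable s hs).mul_bdd (c := M) (by fun_prop)
          (Eventually.of_forall fun z => hM _))
        (fun s hs => by
          rw [zero_mul, Real.exp_zero, mul_one]
          have h2 : ∫ z, pk s z * |ψ (z + y)| ≤ ∫ z, pk s z * M := by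
            refine integral_mono_of_nonneg (Eventually.of_forall fun z =>
              mul_nonneg (pk_pos s hs z).le (abs_nonneg _)) ((pk_integrable s hs).mul_const M)
              (Eventually.of_forall fun z => ?_)
            exact mul_le_mul_of_nonneg_left (hM _) (pk_pos s hs z).le
          rw [integral_mul_const, pk_int_eq s hs, one_mul] at h2
          exact h2)
      have h2 : ∀ K : E → ℝ, ∫ x, K (x - y) * ψ x = ∫ z, K z * ψ (z + y) := by
        intro K
        rw [← integral_sub_right_eq_self (fun z => K z * ψ (z + y)) y]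
        refine integral_congr_ae (Eventually.of_forall fun x => ?_)
        simp only [sub_add_cancel]
      simp only [h2]
      exact h1.2
    have hφc := hφ.continuous
    have hLc : Continuous (Lap φ) := by
      have h1 : Lap φ = fun x => ∑ i, fderiv ℝ (fun x => fderiv ℝ φ x (ee i)) x (ee i) :=
        funext (lap_eq φ hφ)
      rw [h1]
      exact continuous_finsetSum _ fun i _ => d2_cont φ hφ i
    have hLs : HasCompactSupport (Lap φ) := by
      have h1 : Lap φ = fun x => ∑ i, fderiv ℝ (fun x => fderiv ℝ φ x (ee i)) x (ee i) :=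
        funext (lap_eq φ hφ)
      rw [h1]
      simp only [Fin.sum_univ_three]
      exact ((d2_supp φ hc 0).add (d2_supp φ hc 1)).add (d2_supp φ hc 2)
    obtain ⟨i1, e1⟩ := key φ hφc hc
    obtain ⟨i2, e2⟩ := key (Lap φ) hLc hLs
    rw [e1, e2]
    obtain ⟨M, hM⟩ := hφc.bounded_above_of_compact_support hc
    have hM0 : 0 ≤ M := (norm_nonneg _).trans (hM 0)
    set A : ℝ → ℝ := fun s => ∫ x, pk s (x - y) * φ x with hAdef
    set B : ℝ → ℝ := fun s => ∫ x, pk s (x - y) * Lap φ x with hBdef
    have hAb : ∀ s, 0 < s → |A s| ≤ M := by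
      intro s hs
      have h1 : ‖∫ x, pk s (x - y) * φ x‖ ≤ ∫ x, pk s (x - y) * M := by
        refine norm_integral_le_of_norm_le
          (((pk_integrable s hs).comp_sub_right y).mul_const M) (Eventually.of_forall fun x => ?_)
        rw [norm_mul, Real.norm_eq_abs, abs_of_pos (pk_pos s hs _)]
        exact mul_le_mul_of_nonneg_left (hM x) (pk_pos s hs _).le
      rw [integral_mul_const, integral_sub_right_eq_self (pk s), pk_int_eq s hs, one_mul] at h1
      exact h1
    -- the function of the time
    set f : ℝ → ℝ := fun s => if s ≤ 0 then φ y else Real.exp (-(l * s)) * A s with hf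
    have hfd : ∀ s ∈ Set.Ioi (0 : ℝ), HasDerivAt f
        (Real.exp (-(l * s)) * B s - l * (Real.exp (-(l * s)) * A s)) s := by
      intro s hs
      rw [Set.mem_Ioi] at hs
      have h1 : HasDerivAt (fun s => Real.exp (-(l * s))) (Real.exp (-(l * s)) * (-l)) s := by
        have h2 : HasDerivAt (fun s : ℝ => -(l * s)) (-l) s := by
          have h5 := ((hasDerivAt_id s).const_mul l).neg
          rw [mul_one] at h5
          exact h5
        exact h2.exp
      have h3 := h1.mul (hB φ hφ hc y s hs)
      have h4 : HasDerivAt (fun s => Real.exp (-(l * s)) * A s)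
          (Real.exp (-(l * s)) * B s - l * (Real.exp (-(l * s)) * A s)) s := by
        refine h3.congr_deriv ?_
        simp only [hAdef, hBdef]
        ring
      refine h4.congr_of_eventuallyEq ?_
      filter_upwards [lt_mem_nhds hs] with t ht
      simp only [hf]
      rw [if_neg (not_le.2 ht)]
    have hf0 : f 0 = φ y := by simp [hf]
    have hfc : ContinuousWithinAt f (Set.Ici 0) 0 := by
      rw [← continuousWithinAt_Ioi_iff_Ici, ContinuousWithinAt, hf0]
      have h1 : Tendsto (fun s => Real.exp (-(l * s)) * A s) (𝓝[>] 0) (𝓝 (1 * φ y)) := by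
        refine Tendsto.mul ?_ (hC φ hφc hc y)
        have h2 : Continuous (fun s : ℝ => Real.exp (-(l * s))) := by fun_prop
        have h3 := (h2.tendsto 0).mono_left (nhdsWithin_le_nhds (s := Set.Ioi 0))
        simpa using h3
      rw [one_mul] at h1
      refine h1.congr' ?_
      filter_upwards [self_mem_nhdsWithin] with s hs
      simp only [hf]
      rw [if_neg (not_le.2 hs)]
    have hfi : Tendsto f atTop (𝓝 0) := by
      have h1 : Tendsto (fun s : ℝ => Real.exp (-(l * s)) * M) atTop (𝓝 0) := by
        have h2 : Tendsto (fun s : ℝ => Real.exp (-(l * s))) atTop (𝓝 0) := by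
          apply Real.tendsto_exp_atBot.comp
          exact tendsto_neg_atTop_atBot.comp (tendsto_id.const_mul_atTop hl0)
        simpa using h2.mul_const M
      refine squeeze_zero_norm' ?_ h1
      filter_upwards [eventually_gt_atTop 0] with s hs
      simp only [hf]
      rw [if_neg (not_le.2 hs), norm_mul, Real.norm_eq_abs, Real.norm_eq_abs,
        abs_of_pos (Real.exp_pos _)]
      exact mul_le_mul_of_nonneg_left (hAb s hs) (Real.exp_pos _).le
    have h1 := integral_Ioi_of_hasDerivAt_of_tendsto hfc hfd
      (i2.sub (i1.const_mul l)) hfi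
    rw [hf0, integral_sub i2 (i1.const_mul l), integral_const_mul] at h1
    linarith

theorem t_KER' : S_KER := t_KER t_KA t_KB t_KC

end Pool.Agent.L7h21.LA
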